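import Pool.Agent.Q75.HM.Stm

set_option autoImplicit false

/-!
Project HM, job DI: from the sequences to the functions.
-/

namespace Pool.Agent.Q94.HM

open Pool.Agent.Q75.HM Set

/-- the doubled domain depends only on the part of the set left of the line -/
theorem wd_congr (A B : Set ℂ) (T : ℝ) (h : ∀ z : ℂ, z.re < T → (z ∈ A ↔ z ∈ B)) :
    Wd A T = Wd B T := by
  have hHS : ∀ y : ℝ, HS T y ⊆ A ↔ HS T y ⊆ B := fun y =>
    ⟨fun h1 z hz => (h z hz.1).1 (h1 hz), fun h1 z hz => (h z hz.1).2 (h1 hz)⟩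
  have hrf : ∀ z : ℂ, T < z.re → (rf T z).re < T := fun z hz => by
    show 2 * T - z.re < T
    linarith
  ext z
  unfold Wd
  simp only [mem_union, mem_setOf_eq]
  constructor
  · rintro ((⟨h1, h2⟩ | ⟨h1, h2⟩) | ⟨y, h1, h2⟩)
    · exact Or.inl (Or.inl ⟨h1, (h z h1).1 h2⟩)
    · exact Or.inl (Or.inr ⟨h1, (h _ (hrf z h1)).1 h2⟩)
    · exact Or.inr ⟨y, h1, (hHS y).1 h2⟩
  · rintro ((⟨h1, h2⟩ | ⟨h1, h2⟩) | ⟨y, h1, h2⟩)
    · exact Or.inl (Or.inl ⟨h1, (h z h1).2 h2⟩)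
    · exact Or.inl (Or.inr ⟨h1, (h _ (hrf z h1)).2 h2⟩)
    · exact Or.inr ⟨y, h1, (hHS y).2 h2⟩

/-- **DI** -/
theorem t_DI : S_DI := by
  intro H c0 M τ n c δ _ hτ _ _ hc0 hanti hδ
  have hceil : ∀ j : ℕ, ⌈(j : ℝ) * τ / τ⌉₊ = j := fun j => by
    rw [mul_div_cancel_right₀ _ hτ.ne', Nat.ceil_natCast]
  refine ⟨fun s => c ⌈s / τ⌉₊, ?_, ?_, ?_⟩
  · intro s _ s' _ hss
    exact hanti (Nat.ceil_mono (div_le_div_of_nonneg_right hss hτ.le))
  · intro s _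
    exact ⟨hδ _, by rw [← hc0]; exact hanti (Nat.zero_le _)⟩
  · intro t ht
    have h0 : 0 < t / τ := div_pos ht.1 hτ
    have hk1 : t ≤ (⌈t / τ⌉₊ : ℝ) * τ := by
      rw [← div_le_iff₀ hτ]
      exact Nat.le_ceil _
    have hkn : ⌈t / τ⌉₊ ≤ n := by
      rw [Nat.ceil_le, div_le_iff₀ hτ]
      exact ht.2
    refine ⟨⌈t / τ⌉₊, Nat.ceil_pos.2 h0, hkn, hk1, ?_, ?_, ?_⟩
    · have h1 := Nat.ceil_lt_add_one h0.le
      have h2 : (⌈t / τ⌉₊ : ℝ) * τ < (t / τ + 1) * τ := mul_lt_mul_of_pos_right h1 hτ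
      have h3 : (t / τ + 1) * τ = t + τ := by
        field_simp
      linarith
    · show c ⌈(⌈t / τ⌉₊ : ℝ) * τ / τ⌉₊ = c ⌈t / τ⌉₊
      rw [hceil]
    · refine wd_congr _ _ _ fun z hz => ?_
      constructor
      · rintro (h | ⟨s, hs0, hsb, hs⟩)
        · exact Or.inl h
        · refine Or.inr ?_
          rw [mem_iUnion₂]
          rcases le_or_gt ⌈s / τ⌉₊ ⌈t / τ⌉₊ with hle | hlt
          · refine ⟨⌈s / τ⌉₊, Finset.mem_Icc.2 ⟨Nat.ceil_pos.2 (div_pos hs0 hτ), hle⟩, ?_, hs.2⟩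
            refine lt_of_lt_of_le hs.1 ?_
            rw [← div_le_iff₀ hτ]
            exact Nat.le_ceil _
          · exact ⟨⌈t / τ⌉₊, Finset.mem_Icc.2 ⟨Nat.ceil_pos.2 h0, le_rfl⟩, hz,
              lt_of_lt_of_le hs.2 (hanti hlt.le)⟩
      · rintro (h | h)
        · exact Or.inl h
        · rw [mem_iUnion₂] at h
          obtain ⟨j, hj, hz2⟩ := h
          rw [Finset.mem_Icc] at hj
          refine Or.inr ⟨(j : ℝ) * τ, mul_pos (by exact_mod_cast hj.1) hτ,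
            mul_le_mul_of_nonneg_right (by exact_mod_cast hj.2.trans hkn) hτ.le, ?_⟩
          show z ∈ HS ((j : ℝ) * τ) (c ⌈(j : ℝ) * τ / τ⌉₊)
          rw [hceil]
          exact hz2

end Pool.Agent.Q94.HM
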